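import Pool.Agent.H84.NT.Targets5

/-!
# Goodness of some scale gives the regularity of the core (OR)
-/

open MeasureTheory ProbabilityTheory
open scoped ENNReal
open Pool.Agent.H99.NS Pool.Agent.H22.LPP Pool.Agent.H95.INS Pool.Agent.H76.ND Pool.Agent.H95.ND
open Pool.Agent.H84.NT hiding lv two_lv
open Pool.Agent.H84.NT5

namespace Pool.Agent.H22.NT

theorem shift_shift (a b : Site) (ω : Env) : shiftE a (shiftE b ω) = shiftE (a + b) ω := by
  funext x
  unfold shiftE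
  rw [add_assoc]

theorem lvs (i : ℕ) : lv (i + 1) = 32 * 64 ^ i := by
  unfold lv
  rw [Nat.add_sub_cancel]

theorem lvp (i : ℕ) : 0 < lv i := by unfold lv; positivity

/-- The shifted path. -/
def sg' (z : Site) (g : ℤ → ℤ) : ℤ → ℤ := fun r => g (r + z.1) - z.2

theorem wt_sg (ω : Env) (z : Site) (s t : ℤ) (g : ℤ → ℤ) :
    wt (shiftE z ω) s t (sg' z g) = wt ω (s + z.1) (t + z.1) g := by
  rw [wt_shift]
  congr 1
  funext r
  unfold sg'
  rw [sub_add_cancel, sub_add_cancel]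

theorem near_sg {ω : Env} {z o e : Site} {h : ℝ} {g : ℤ → ℤ} (hg : Near ω o e h g) :
    Near (shiftE z ω) (o - z) (e - z) h (sg' z g) := by
  obtain ⟨⟨h1, h2, h3⟩, h4⟩ := hg
  refine ⟨⟨?_, ?_, ?_⟩, ?_⟩
  · intro r hr1 hr2
    have e1 : (o - z).1 = o.1 - z.1 := rfl
    have e2 : (e - z).1 = e.1 - z.1 := rfl
    rw [e1] at hr1
    rw [e2] at hr2
    have := h1 (r + z.1) (by omega) (by omega)
    unfold sg'
    rw [show r + 1 + z.1 = r + z.1 + 1 by ring]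
    omega
  · have e1 : (o - z).1 = o.1 - z.1 := rfl
    have e2 : (o - z).2 = o.2 - z.2 := rfl
    unfold sg'
    rw [e1, e2, sub_add_cancel, h2]
  · have e1 : (e - z).1 = e.1 - z.1 := rfl
    have e2 : (e - z).2 = e.2 - z.2 := rfl
    unfold sg'
    rw [e1, e2, sub_add_cancel, h3]
  · rw [wt_sg, T_shift, sub_add_cancel, sub_add_cancel]
    have e1 : (o - z).1 + z.1 = o.1 := by
      show o.1 - z.1 + z.1 = o.1
      ring
    have e2 : (e - z).1 + z.1 = e.1 := by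
      show e.1 - z.1 + z.1 = e.1
      ring
    rw [e1, e2]
    exact h4

theorem pf_OR (h_SHF : T_SHF) (h_O1W : T_O1W) (h_REGE : T_REGE) (h_U : T_U) (h_D1 : T_D1)
    (_h_LAM : B_LAM) : T_OR := by
  intro q hq0 hq1
  obtain ⟨C1, hC1, hREGE⟩ := h_REGE q hq0 hq1
  obtain ⟨C2, hC2, hD1⟩ := h_D1 q hq0 hq1
  obtain ⟨C3, hC3, hO1W⟩ := h_O1W q hq0 hq1
  refine ⟨100 + 100 * C1 + 100 * C2 + 100 * C3, by linarith, ?_⟩
  intro c K a a1 d k j w D ω hcq hK0 ha hK40 haa1 ha1k hkad hkK hj hXf64 hXf4 hgood hRG hTOP hD0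
    hD64 hLKw
  obtain ⟨Cκ, hCκ⟩ : ∃ Cκ : ℝ, Cκ = 100 + 100 * C1 + 100 * C2 + 100 * C3 := ⟨_, rfl⟩
  rw [← hCκ]
  obtain ⟨κ, hκ⟩ : ∃ κ : ℝ, κ = kp Cκ c.K0 d := ⟨_, rfl⟩
  rw [← hκ]
  -- size of the constants
  obtain ⟨θ, hθ⟩ : ∃ θ : ℝ, θ = (101 / 100 : ℝ) ^ d := ⟨_, rfl⟩
  have hθ1 : 1 ≤ θ := by rw [hθ]; exact one_le_pow₀ (by norm_num)
  obtain ⟨E, hE⟩ : ∃ E : ℝ, E = c.K0 ^ 4 * θ ^ 4 := ⟨_, rfl⟩
  have hκE : κ = Cκ * E := by
    rw [hκ, hE, hθ]
    unfold kp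
    rw [← pow_mul, mul_comm d 4]
    ring
  obtain ⟨Z, hZ⟩ : ∃ Z : ℝ, Z = c.K0 * θ := ⟨_, rfl⟩
  have hZ1 : 1 ≤ Z := by rw [hZ]; nlinarith
  have hEZ : E = Z ^ 4 := by rw [hE, hZ]; ring
  have hZE : Z ≤ E := by
    rw [hEZ]
    nth_rewrite 1 [← pow_one Z]
    exact pow_le_pow_right₀ hZ1 (by norm_num)
  have hZ2E : Z ^ 2 ≤ E := by
    rw [hEZ]; exact pow_le_pow_right₀ hZ1 (by norm_num)
  have hE1 : 1 ≤ E := by rw [hEZ]; exact one_le_pow₀ hZ1
  have hka : (101 / 100 : ℝ) ^ (k - a) ≤ θ := by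
    rw [hθ]; exact pow_le_pow_right₀ (by norm_num) (by omega)
  have hka1 : 1 ≤ (101 / 100 : ℝ) ^ (k - a) := one_le_pow₀ (by norm_num)
  have hK0p : 0 < c.K0 := by linarith
  have hKka : c.K0 * (101 / 100) ^ (k - a) ≤ Z := by rw [hZ]; gcongr
  -- centre
  obtain ⟨z, hz⟩ : ∃ z : Site, z = zc j a1 w := ⟨_, rfl⟩
  have hz1 : z.1 = j := by rw [hz]; rfl
  have hz2 : z.2 = w * 16 ^ a1 + j % 2 := by rw [hz]; rfl
  rw [← hz] at hgood
  have hGN : GN c.q c.K0 (Xf K) a (K - 2) k (shiftE z ω) := hgood.1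
  rw [hcq] at hGN
  obtain ⟨hw1, hw2⟩ : w * 16 ^ a1 ≤ LK K ω j ∧ LK K ω j < (w + 1) * 16 ^ a1 := hLKw
  have h16a1 : (1 : ℤ) ≤ 16 ^ a1 := one_le_pow₀ (by norm_num)
  have h16k : (16 : ℤ) ^ a1 ≤ 16 ^ k := pow_le_pow_right₀ (by norm_num) ha1k
  have hjm : 0 ≤ j % 2 ∧ j % 2 ≤ 1 := by omega
  have hw2' : LK K ω j < w * 16 ^ a1 + 16 ^ a1 := by
    have : (w + 1) * 16 ^ a1 = w * 16 ^ a1 + 16 ^ a1 := by ring
    omega
  have hx0 : |LK K ω j - z.2| ≤ 16 ^ a1 := by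
    rw [hz2, abs_le]
    constructor <;> omega
  have hx0' : |LK K ω j - z.2| ≤ 8 * 16 ^ k := by omega
  -- first part
  obtain ⟨K1, hK1⟩ : ∃ K1 : ℝ, K1 = 9 * c.K0 * (101 / 100) ^ (k - a) := ⟨_, rfl⟩
  have hK11 : 1 ≤ K1 := by rw [hK1]; nlinarith
  have hK1Z : K1 ≤ 9 * Z := by rw [hK1]; linarith
  have hK1E : K1 ^ 2 ≤ 81 * E := by
    calc K1 ^ 2 ≤ (9 * Z) ^ 2 := by gcongr
      _ = 81 * Z ^ 2 := by ring
      _ ≤ 81 * E := by linarith
  have hshift : shiftE (0, LK K ω j - z.2) (shiftE z ω) = shiftE (j, LK K ω j) ω := by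
    rw [shift_shift]
    congr 1
    ext
    · show 0 + z.1 = j
      rw [hz1, zero_add]
    · show LK K ω j - z.2 + z.2 = LK K ω j
      ring
  have hGN1 : GN q K1 (Xf K - 16) a a a (shiftE (j, LK K ω j) ω) := by
    have := h_SHF q c.K0 (Xf K) (Xf K - 16) (LK K ω j - z.2) a (K - 2) k (shiftE z ω) hK0p.le ha
      (haa1.trans ha1k) (by omega) hx0' (by omega) (by omega) hGN
    rw [hshift, ← hK1] at this
    exact this
  have hNm := hGN1 a le_rfl le_rfl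
  have hPB := h_U (fwd (shiftE (j, LK K ω j) ω)) q K1 a a a hq0 hq1 (by linarith) ha le_rfl le_rfl
    (hNm.uc rfl) (by
      intro i h1 h2
      have : i = a := le_antisymm h2 h1
      subst this
      exact ⟨hNm.um, hNm.up⟩)
  rw [Nat.sub_self, pow_zero, mul_one] at hPB
  have hu : O1S (dr q κ a ((Xf K - 16) * 16 ^ a)) (shiftE (j, LK K ω j) ω) := by
    refine hO1W _ a K1 _ ha hK11 rfl rfl rfl rfl ?_ hPB
    show C3 * K1 ^ 2 ≤ κ
    rw [hκE, hCκ]
    have h1 : C3 * K1 ^ 2 ≤ C3 * (81 * E) := by gcongr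
    have h2 : 0 ≤ (100 + 100 * C1 + 100 * C2) * E := by positivity
    have h3 : 0 ≤ C3 * E := by positivity
    linarith
  have hl : O2 (dr q κ a ((Xf K - 16) * 16 ^ a)) (shiftE (j, LK K ω j) ω) := by
    have h0 := hD1 ⟨q, K1, κ, 0, 0, 0, 0⟩ (Xf K - 16) a a a (shiftE (j, LK K ω j) ω) rfl hK11 (by
      show C2 * K1 ^ 2 ≤ κ
      rw [hκE, hCκ]
      have h1 : C2 * K1 ^ 2 ≤ C2 * (81 * E) := by gcongr
      have h2 : 0 ≤ (100 + 100 * C1 + 100 * C3) * E := by positivity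
      have h3 : 0 ≤ C2 * E := by positivity
      linarith) (by omega) (by omega) ha le_rfl le_rfl hGN1
    exact h0.2.1
  refine ⟨hu, hl, ?_⟩
  -- second part
  intro g t1 hg ht1 hgt1
  have hI : K - 2 + 1 = K - 1 := by omega
  obtain ⟨K', hK'⟩ : ∃ K' : ℕ, K = K' + 2 := ⟨K - 2, by omega⟩
  have hlvK : lv K = 2048 * 64 ^ K' := by
    rw [hK', show K' + 2 = (K' + 1) + 1 by ring, lvs, pow_succ]; ring
  have hlvK1 : lv (K - 1) = 32 * 64 ^ K' := by
    rw [hK', show K' + 2 - 1 = K' + 1 by omega, lvs]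
  have hjK : |j| ≤ 1280 * 64 ^ K' := by
    refine hj.trans (le_of_eq ?_)
    rw [hK', show K' + 2 - 1 = K' + 1 by omega, pow_succ]; ring
  have h64K' : (0 : ℤ) < 64 ^ K' := by positivity
  have hlva : lv a ≤ lv (K - 1) := by
    unfold lv
    have : (64 : ℤ) ^ (a - 1) ≤ 64 ^ (K - 1 - 1) := pow_le_pow_right₀ (by norm_num) (by omega)
    linarith
  rw [abs_le] at hjK
  rw [abs_le] at ht1
  have hoK : (oK K).1 = -lv K := rfl
  have heK : (eK K).1 = lv K := rfl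
  have h4a : (1 : ℝ) ≤ 4 ^ (K / 2000) := one_le_pow₀ (by norm_num)
  have hnear1 : Near ω (oK K) (eK K) (4 ^ (K / 2000) * 4 ^ a) g := by
    refine ⟨hg.1, ?_⟩
    have h1 := hg.2
    have h2 : (0 : ℝ) < 4 ^ a := by positivity
    have h3 : (4 : ℝ) ^ a ≤ 4 ^ (K / 2000) * 4 ^ a := by nlinarith
    linarith
  have hnearK : Near ω (oK K) (eK K) (4 ^ K) g := by
    refine ⟨hg.1, ?_⟩
    have h1 := hg.2
    have h2 : (4 : ℝ) ^ a ≤ 4 ^ K := pow_le_pow_right₀ (by norm_num) (by omega)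
    linarith
  have hrgg := hRG a hK40 (by omega) g hnear1
  have htop := hTOP g hnearK
  have hRGz : RG (Xf K) a (K - 2) (t1 - j) (sg' z g) := by
    have hval : ∀ r, sg' z g r - sg' z g (t1 - j) = g (r + j) - g t1 := by
      intro r
      unfold sg'
      rw [hz1, sub_add_cancel]
      ring
    refine ⟨?_, ?_, ?_⟩
    · intro i h1 h2
      rw [hval]
      have e1 : lv (i + 1) = 32 * 64 ^ i := lvs i
      have e2 : lv a ≤ lv (i + 1) := by
        unfold lv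
        have : (64 : ℤ) ^ (a - 1) ≤ 64 ^ (i + 1 - 1) := pow_le_pow_right₀ (by norm_num) (by omega)
        linarith
      have e3 : lv (i + 1) ≤ lv (K - 1) := by
        unfold lv
        have : (64 : ℤ) ^ (i + 1 - 1) ≤ 64 ^ (K - 1 - 1) :=
          pow_le_pow_right₀ (by norm_num) (by omega)
        linarith
      have h3 := hrgg i h1 (-lv (i + 1) + j) t1 (by omega) (by omega) (by omega) (by
        rw [pow_succ]; omega)
      rw [abs_sub_comm]
      exact h3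
    · intro i h1 h2
      rw [hval]
      have e1 : lv (i + 1) = 32 * 64 ^ i := lvs i
      have e2 : lv a ≤ lv (i + 1) := by
        unfold lv
        have : (64 : ℤ) ^ (a - 1) ≤ 64 ^ (i + 1 - 1) := pow_le_pow_right₀ (by norm_num) (by omega)
        linarith
      have e3 : lv (i + 1) ≤ lv (K - 1) := by
        unfold lv
        have : (64 : ℤ) ^ (i + 1 - 1) ≤ 64 ^ (K - 1 - 1) :=
          pow_le_pow_right₀ (by norm_num) (by omega)
        linarith
      exact hrgg i h1 t1 (lv (i + 1) + j) (by omega) (by omega) (by omega) (by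
        rw [pow_succ]; omega)
    · intro r h1 h2
      rw [hval]
      have e1 : lv (a + 1) = 32 * 64 ^ a := lvs a
      have e2 : lv a ≤ lv (a + 1) := by
        unfold lv
        have : (64 : ℤ) ^ (a - 1) ≤ 64 ^ (a + 1 - 1) := pow_le_pow_right₀ (by norm_num) (by omega)
        linarith
      rcases le_total t1 (r + j) with h | h
      · exact hrgg a le_rfl t1 (r + j) (by omega) h (by omega) (by rw [pow_succ]; omega)
      · rw [abs_sub_comm]
        exact hrgg a le_rfl (r + j) t1 (by omega) h (by omega) (by rw [pow_succ]; omega)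
  have hgt : |(sg' z g (t1 - j) : ℝ)| ≤ 8 * 16 ^ k := by
    have h1 : |sg' z g (t1 - j)| ≤ 8 * 16 ^ k := by
      unfold sg'
      rw [hz1, sub_add_cancel]
      have : g t1 - z.2 = (g t1 - LK K ω j) + (LK K ω j - z.2) := by ring
      rw [this]
      have h3 := abs_add_le (g t1 - LK K ω j) (LK K ω j - z.2)
      omega
    rw [← Int.cast_abs]
    exact_mod_cast h1
  have hDt : Dt (K - 2) (t1 - j) (sg' z g) ≤ 32 * D := by
    unfold Dt
    rw [hI, div_le_iff₀ (by positivity)]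
    have hval : ∀ r, sg' z g r - sg' z g (t1 - j) = g (r + j) - g t1 := by
      intro r
      unfold sg'
      rw [hz1, sub_add_cancel]
      ring
    rw [hval, hval]
    have e16 : (16 : ℝ) ^ K = 16 * 16 ^ (K - 1) := by
      rw [hK', show K' + 2 - 1 = K' + 1 by omega, show K' + 2 = (K' + 1) + 1 by ring, pow_succ]
      ring
    have b1 := htop (-lv (K - 1) + j) (by omega) (by omega)
    have b2 := htop (lv (K - 1) + j) (by omega) (by omega)
    have b3 := htop t1 (by omega) (by omega)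
    rw [e16] at b1 b2 b3
    apply max_le
    · push_cast
      refine (abs_sub _ _).trans ?_
      linarith
    · push_cast
      refine (abs_sub _ _).trans ?_
      linarith
  have hDt0 : 0 ≤ Dt (K - 2) (t1 - j) (sg' z g) := by
    unfold Dt
    have : 0 ≤ max |((sg' z g (-lv (K - 2 + 1)) - sg' z g (t1 - j) : ℤ) : ℝ)|
      |((sg' z g (lv (K - 2 + 1)) - sg' z g (t1 - j) : ℤ) : ℝ)| := le_max_of_le_left (abs_nonneg _)
    positivity
  have h38 : (3 / 8 : ℝ) ^ (K - 2 - a) * Dt (K - 2) (t1 - j) (sg' z g) ≤ 1 / 2 := by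
    calc (3 / 8 : ℝ) ^ (K - 2 - a) * Dt (K - 2) (t1 - j) (sg' z g) ≤
        (3 / 8 : ℝ) ^ (K - 2 - a) * (32 * D) := by gcongr
      _ ≤ 1 / 2 := by linarith
  have hR := hREGE c.K0 (Xf K) a (K - 2) k (shiftE z ω) (oK K - z) (eK K - z) (t1 - j) (sg' z g)
    hK0 (by omega) hXf4 ha (haa1.trans ha1k) (by omega) (by
      show (oK K).1 - z.1 ≤ -lv (K - 2 + 1)
      rw [hI, hz1, hoK]
      omega) (by
      show lv (K - 2 + 1) ≤ (eK K).1 - z.1
      rw [hI, hz1, heK]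
      omega) hGN (near_sg hg) (by omega) (by omega) hgt hRGz
  obtain ⟨R1, R2, R3⟩ := hR
  have hval : ∀ t, sg' z g (t - j) = g t - z.2 := by
    intro t
    unfold sg'
    rw [hz1, sub_add_cancel]
  have h16a : (0 : ℝ) < 16 ^ a := by positivity
  have hds : (101 / 100 : ℝ) ^ ds k (a + 1) ≤ 101 / 100 * θ := by
    have h1 : ds k (a + 1) ≤ d + 1 := by unfold ds; omega
    calc (101 / 100 : ℝ) ^ ds k (a + 1) ≤ (101 / 100) ^ (d + 1) :=
          pow_le_pow_right₀ (by norm_num) h1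
      _ = 101 / 100 * θ := by rw [hθ, pow_succ]; ring
  have hC1Z : C1 * Z ≤ C1 * E := by gcongr
  have hC1E : 0 ≤ C1 * E := by positivity
  have hC2E : 0 ≤ C2 * E := by positivity
  have hC3E : 0 ≤ C3 * E := by positivity
  have hκexp : κ = 100 * E + 100 * (C1 * E) + 100 * (C2 * E) + 100 * (C3 * E) := by
    rw [hκE, hCκ]; ring
  have hR1 := R1 (a + 1) le_rfl (by omega)
  have hexpo : K - 2 + 1 - (a + 1) = K - 2 - a := by omega
  rw [hexpo] at hR1
  have hbd : (3 / 8 : ℝ) ^ (K - 2 - a) * Dt (K - 2) (t1 - j) (sg' z g) +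
      C1 * c.K0 * (101 / 100) ^ ds k (a + 1) ≤ 1 / 2 + 101 / 100 * (C1 * Z) := by
    have h1 : C1 * c.K0 * (101 / 100) ^ ds k (a + 1) ≤ C1 * c.K0 * (101 / 100 * θ) := by gcongr
    have h2 : C1 * c.K0 * (101 / 100 * θ) = 101 / 100 * (C1 * Z) := by rw [hZ]; ring
    linarith
  have h16s : (16 : ℝ) ^ (a + 1) = 16 * 16 ^ a := by rw [pow_succ]; ring
  have hside : ∀ v : ℝ, v / 16 ^ (a + 1) ≤ (3 / 8 : ℝ) ^ (K - 2 - a) *
      Dt (K - 2) (t1 - j) (sg' z g) + C1 * c.K0 * (101 / 100) ^ ds k (a + 1) →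
      v ≤ κ * 16 ^ a := by
    intro v hv
    have h1 := hv.trans hbd
    rw [div_le_iff₀ (by positivity), h16s] at h1
    refine h1.trans ?_
    have h2 : (1 / 2 + 101 / 100 * (C1 * Z)) * 16 ≤ κ := by rw [hκexp]; linarith
    calc (1 / 2 + 101 / 100 * (C1 * Z)) * (16 * 16 ^ a) =
        ((1 / 2 + 101 / 100 * (C1 * Z)) * 16) * 16 ^ a := by ring
      _ ≤ κ * 16 ^ a := by gcongr
  refine ⟨?_, ?_, ?_, ?_⟩
  · intro t ht
    rw [abs_le] at ht
    have h1 := R2 (t - j) (by omega) (by omega)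
    rw [hval, hval] at h1
    have e1 : g t - z.2 - (g t1 - z.2) = g t - g t1 := by ring
    rw [e1] at h1
    refine h1.trans ?_
    rw [mul_comm κ]
    apply mul_le_mul_of_nonneg_left _ h16a.le
    have h2 : C1 * c.K0 * (101 / 100) ^ (k - a) ≤ C1 * Z := by
      rw [mul_assoc]
      gcongr
    have h3 : 3 * (3 / 8 : ℝ) ^ (K - 2 - a) * Dt (K - 2) (t1 - j) (sg' z g) =
      3 * ((3 / 8 : ℝ) ^ (K - 2 - a) * Dt (K - 2) (t1 - j) (sg' z g)) := by ring
    rw [h3, hκexp]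
    linarith
  · have h1 := hside _ hR1.1
    have e1 : sg' z g (-lv (a + 1)) - sg' z g (t1 - j) = g (j - lv (a + 1)) - g t1 := by
      rw [show -lv (a + 1) = (j - lv (a + 1)) - j by ring, hval, hval]; ring
    rw [e1] at h1
    exact h1
  · have h1 := hside _ hR1.2
    have e1 : sg' z g (lv (a + 1)) - sg' z g (t1 - j) = g (j + lv (a + 1)) - g t1 := by
      rw [show lv (a + 1) = (j + lv (a + 1)) - j by ring, hval, hval]
      rw [show j + (j + lv (a + 1) - j) = j + lv (a + 1) by ring]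
      ring
    rw [e1] at h1
    exact h1
  · rw [wt_sg, hz1] at R3
    have e1 : -lv a + j = j - lv a := by ring
    have e2 : lv a + j = j + lv a := by ring
    rw [e1, e2] at R3
    refine le_trans ?_ R3
    have h1 : ((3 / 8 : ℝ) ^ (K - 2 - a) * Dt (K - 2) (t1 - j) (sg' z g) +
        c.K0 * (101 / 100) ^ (k - a)) ^ 2 ≤ (2 * Z) ^ 2 := by
      have h2 : 0 ≤ (3 / 8 : ℝ) ^ (K - 2 - a) * Dt (K - 2) (t1 - j) (sg' z g) +
        c.K0 * (101 / 100) ^ (k - a) := by positivity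
      apply pow_le_pow_left₀ h2
      linarith
    have h3 : C1 * 4 ^ a * ((3 / 8 : ℝ) ^ (K - 2 - a) * Dt (K - 2) (t1 - j) (sg' z g) +
        c.K0 * (101 / 100) ^ (k - a)) ^ 2 ≤ C1 * 4 ^ a * (2 * Z) ^ 2 := by gcongr
    have h4 : C1 * 4 ^ a * (2 * Z) ^ 2 ≤ κ * 4 ^ a := by
      have h5 : C1 * (2 * Z) ^ 2 ≤ κ := by
        have : C1 * (2 * Z) ^ 2 = 4 * (C1 * Z ^ 2) := by ring
        rw [this, hκexp]
        have h6 : C1 * Z ^ 2 ≤ C1 * E := by gcongr
        linarith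
      calc C1 * 4 ^ a * (2 * Z) ^ 2 = (C1 * (2 * Z) ^ 2) * 4 ^ a := by ring
        _ ≤ κ * 4 ^ a := by gcongr
    linarith

end Pool.Agent.H22.NT
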